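import Mathlib
import Pool.Agent.H17.FreeL

namespace Pool.Agent.Results.MP_f94ac9_gt.Para
open Set Topology

universe u v w

/-- `L` with the map `i : X → L` is the free topological linear space over the discrete reals:
`L` is a Hausdorff real vector space with continuous addition and continuous multiplication by
each fixed scalar, `i` is a topological embedding whose image is a Hamel basis, and each
continuous map from `X` to such a space `E` (in universe `w`) extends uniquely to a continuous
linear map. -/
structure IsFree (X : Type u) (L : Type v) [TopologicalSpace X] [AddCommGroup L] [Module ℝ L]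
    [TopologicalSpace L] (i : X → L) : Prop where
  t2 : T2Space L
  add : ContinuousAdd L
  smul : ∀ r : ℝ, Continuous fun v : L => r • v
  emb : IsEmbedding i
  indep : LinearIndependent ℝ i
  span : Submodule.span ℝ (range i) = ⊤
  ext : ∀ (E : Type w) [AddCommGroup E] [Module ℝ E] [TopologicalSpace E], T2Space E →
    ContinuousAdd E → (∀ r : ℝ, Continuous fun v : E => r • v) → ∀ f : X → E, Continuous f →
      ∃! F : L →ₗ[ℝ] E, Continuous F ∧ ∀ x, F (i x) = f x

def T (X : Type u) [TopologicalSpace X] : Set (TopologicalSpace (X →₀ ℝ)) :=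
  {t | @ContinuousAdd _ t _ ∧ (∀ r : ℝ, Continuous[t, t] fun v : X →₀ ℝ => r • v) ∧
      Continuous[_, t] fun x : X => Finsupp.single x (1 : ℝ)}

theorem ind {X : Type u} [TopologicalSpace X] {E : Type*} [AddCommGroup E] [Module ℝ E]
    [t : TopologicalSpace E] [ContinuousAdd E] (hs : ∀ r : ℝ, Continuous fun v : E => r • v)
    (G : (X →₀ ℝ) →ₗ[ℝ] E) (hG : Continuous fun x : X => G (Finsupp.single x 1)) :
    Continuous[sInf (T X), t] G := by
  refine continuous_iff_le_induced.2 (sInf_le ⟨continuousAdd_induced G, fun r => ?_, ?_⟩)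
  · refine continuous_induced_rng.2 ?_
    have : (G ∘ fun v => r • v) = (fun e => r • e) ∘ G := funext fun v => by simp
    rw [this]
    exact @Continuous.comp _ _ _ (t.induced G) t t _ _ (hs r) continuous_induced_dom
  · exact continuous_induced_rng.2 hG

theorem exists_free (X : Type u) [MetricSpace X] :
    ∃ τ : TopologicalSpace (X →₀ ℝ),
      @IsFree.{u, u, w} X (X →₀ ℝ) _ _ _ τ fun x => Finsupp.single x (1 : ℝ) := by
  let : TopologicalSpace (X →₀ ℝ) := sInf (T X)
  let G : (X →₀ ℝ) →ₗ[ℝ] H17.FreeL.E X := LinearMap.id (R := ℝ) (M := X →₀ ℝ)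
  have Gc : Continuous G := ind (fun r => continuous_const_smul r) G H17.FreeL.cont_single
  have hi : Continuous fun x : X => Finsupp.single x (1 : ℝ) :=
    continuous_sInf_rng.2 fun t ht => ht.2.2
  refine ⟨this, T2Space.of_injective_continuous (f := G) (fun a b h => h) Gc,
    continuousAdd_sInf fun t ht => ht.1,
    fun r => continuous_sInf_rng.2 fun t ht => continuous_sInf_dom ht (ht.2.1 r),
    IsEmbedding.of_comp hi Gc H17.FreeL.emb_single, ?_, ?_, ?_⟩
  · simpa using (Finsupp.basisSingleOne (ι := X) (R := ℝ)).linearIndependent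
  · simpa using (Finsupp.basisSingleOne (ι := X) (R := ℝ)).span_eq
  · intro E _ _ _ _ _ hs f hf
    refine ⟨Finsupp.linearCombination ℝ f, ⟨ind hs _ (by simpa using hf), by simp⟩, ?_⟩
    intro F hF
    refine Finsupp.lhom_ext' fun x => LinearMap.ext_ring ?_
    simpa using hF.2 x

theorem result (X : Type u) [TopologicalSpace X] [TopologicalSpace.MetrizableSpace X] :
    (∃ τ : TopologicalSpace (X →₀ ℝ),
      @IsFree.{u, u, w} X (X →₀ ℝ) _ _ _ τ fun x => Finsupp.single x (1 : ℝ)) ∧
    ∀ (L : Type v) [AddCommGroup L] [Module ℝ L] [TopologicalSpace L] (i : X → L),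
      IsFree.{u, v, u} X L i → T2Space L ∧ ParacompactSpace L := by
  let := TopologicalSpace.metrizableSpaceMetric X
  refine ⟨exists_free X, fun L _ _ _ i h => ⟨h.t2, ?_⟩⟩
  have := h.add
  have : ContinuousConstSMul ℝ L := ⟨h.smul⟩
  let b : Module.Basis X ℝ L := Module.Basis.mk h.indep h.span.ge
  have hb : ⇑b = i := Module.Basis.coe_mk _ _
  obtain ⟨G, ⟨Gc, GF⟩, -⟩ := h.ext (H17.FreeL.E X) inferInstance inferInstance
    (fun r => continuous_const_smul r) _ H17.FreeL.cont_single
  refine H17.FreeL.main b (hb ▸ h.emb.continuous) ?_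
  have : (fun v => H17.FreeL.mk (b.repr v)) = G := by
    have e : (b.repr : L →ₗ[ℝ] (X →₀ ℝ)) = G := by
      refine b.ext fun x => ?_
      have := GF x
      rw [← hb] at this
      exact (b.repr_self x).trans this.symm
    funext v
    exact LinearMap.congr_fun e v
  rw [this]
  exact Gc

end Pool.Agent.Results.MP_f94ac9_gt.Para
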